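import Mathlib
import Pool.Agent.Helper63.RC.Defs

set_option autoImplicit false

namespace Pool.Agent.Helper63.RC

open Matrix Module

theorem rc4_finite_not_unit {B : Type*} [Ring B] [Algebra ℂ B] [FiniteDimensional ℂ B] (β : B) :
    {s : ℂ | ¬ IsUnit (1 + s • β)}.Finite := by
  rcases subsingleton_or_nontrivial B with hB | hB
  · have : {s : ℂ | ¬ IsUnit (1 + s • β)} = ∅ := by
      ext s
      simp only [Set.mem_ofPred_eq, Set.mem_empty_iff_false, iff_false, not_not]
      exact isUnit_of_subsingleton _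
    rw [this]
    exact Set.finite_empty
  · have hint : IsIntegral ℂ β := Algebra.IsIntegral.isIntegral β
    have hspec : (spectrum ℂ β).Finite := by
      have h1 : spectrum ℂ β ⊆ {k | (minpoly ℂ β).IsRoot k} := by
        intro k hk
        have h2 := spectrum.subset_polynomial_aeval β (minpoly ℂ β) ⟨k, hk, rfl⟩
        rw [minpoly.aeval, spectrum.zero_eq] at h2
        exact h2
      exact (Polynomial.finite_setOfPred_isRoot (minpoly.ne_zero hint)).subset h1
    have h3 : {s : ℂ | ¬ IsUnit (1 + s • β)} ⊆ {0} ∪ (fun k : ℂ => -k⁻¹) '' (spectrum ℂ β) := by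
      intro s hs
      by_cases h0 : s = 0
      · exact Or.inl h0
      · right
        refine ⟨-s⁻¹, ?_, by simp⟩
        rw [spectrum.mem_iff]
        intro hu
        apply hs
        have e : (1 : B) + s • β = (-s) • (algebraMap ℂ B (-s⁻¹) - β) := by
          rw [smul_sub, Algebra.algebraMap_eq_smul_one, smul_smul, neg_mul_neg,
            mul_inv_cancel₀ h0, one_smul, neg_smul, sub_neg_eq_add]
        rw [e]
        have hs' : IsUnit (-s) := (neg_ne_zero.2 h0).isUnit
        obtain ⟨us, hus⟩ := hs'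
        rw [← hus, ← Units.smul_def]
        exact (isUnit_smul_iff us _).2 hu
    exact ((Set.finite_singleton _).union (hspec.image _)).subset h3

theorem rc4_finite_not_indep {V : Type*} [AddCommGroup V] [Module ℂ V] [FiniteDimensional ℂ V]
    {m : ℕ} (u v : Fin m → V) (h : LinearIndependent ℂ u) :
    {s : ℂ | ¬ LinearIndependent ℂ (fun i => u i + s • v i)}.Finite := by
  obtain ⟨L, hL⟩ : ∃ L : V →ₗ[ℂ] (Fin m → ℂ), ∀ i, L (u i) = Pi.single i 1 := by
    have hinj : LinearMap.ker (Fintype.linearCombination ℂ u) = ⊥ := by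
      rw [LinearMap.ker_eq_bot]
      exact linearIndependent_iff_injective_fintypeLinearCombination.1 h
    obtain ⟨L, hL⟩ := LinearMap.exists_leftInverse_of_injective _ hinj
    refine ⟨L, fun i => ?_⟩
    have h1 := LinearMap.congr_fun hL (Pi.single i 1)
    rw [LinearMap.comp_apply, Fintype.linearCombination_apply_single, one_smul] at h1
    exact h1
  set N : Matrix (Fin m) (Fin m) ℂ := Matrix.of fun i j => L (v j) i with hN
  refine (rc4_finite_not_unit N).subset ?_
  intro s hs hu
  apply hs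
  have h1 : LinearIndependent ℂ (fun j => (1 + s • N).col j) :=
    Matrix.linearIndependent_cols_iff_isUnit.2 hu
  have h2 : (fun j => (1 + s • N).col j) = L ∘ (fun i => u i + s • v i) := by
    funext j
    funext i
    rw [Function.comp_apply, map_add, map_smul, hL]
    show (1 + s • N) i j = _
    rw [Matrix.add_apply, Matrix.one_apply, Pi.add_apply, Pi.single_apply]
    rfl
  rw [h2] at h1
  exact h1.of_comp L

theorem rc4_generic_unit {B P : Type*} [Ring B] [Algebra ℂ B] [FiniteDimensional ℂ B]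
    [AddCommGroup P] [Module ℂ P] [FiniteDimensional ℂ P] (ρ : B →ₐ[ℂ] Module.End ℂ P)
    (U : Submodule ℂ P) :
    ∃ c : Bˣ, ∀ β : B, ∀ x ∈ U, x ∈ U.map (ρ (c : B)) → ρ β x ∈ U ⊔ U.map (ρ (c : B)) := by
  classical
  -- a unit for which the dimension is maximal
  obtain ⟨c, hc⟩ : ∃ c : Bˣ, ∀ c' : Bˣ,
      finrank ℂ (U ⊔ U.map (ρ (c' : B)) : Submodule ℂ P) ≤
        finrank ℂ (U ⊔ U.map (ρ (c : B)) : Submodule ℂ P) := by
    by_contra hcon
    push Not at hcon
    have key : ∀ n : ℕ, ∃ c : Bˣ, n ≤ finrank ℂ (U ⊔ U.map (ρ (c : B)) : Submodule ℂ P) := by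
      intro n
      induction n with
      | zero => exact ⟨1, Nat.zero_le _⟩
      | succ n ih =>
        obtain ⟨c, hc⟩ := ih
        obtain ⟨c', hc'⟩ := hcon c
        exact ⟨c', by omega⟩
    obtain ⟨c, hc⟩ := key (finrank ℂ P + 1)
    have := Submodule.finrank_le (U ⊔ U.map (ρ (c : B)) : Submodule ℂ P)
    omega
  refine ⟨c, fun β x hx hxc => ?_⟩
  by_contra hβ
  set S : Submodule ℂ P := U ⊔ U.map (ρ (c : B)) with hS
  have hspan : Submodule.span ℂ ((U : Set P) ∪ (U.map (ρ (c : B)) : Submodule ℂ P)) = S := by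
    rw [Submodule.span_union, Submodule.span_eq, Submodule.span_eq]
  obtain ⟨m, hmS, u, hu, hus, huind⟩ : ∃ m : ℕ, m = finrank ℂ S ∧ ∃ u : Fin m → P,
      (∀ i, u i ∈ (U : Set P) ∪ (U.map (ρ (c : B)) : Submodule ℂ P)) ∧
      Submodule.span ℂ (Set.range u) = S ∧ LinearIndependent ℂ u := by
    obtain ⟨u, hu, hus, huind⟩ := Submodule.exists_fun_fin_finrank_span_eq ℂ
      ((U : Set P) ∪ (U.map (ρ (c : B)) : Submodule ℂ P))
    refine ⟨_, ?_, u, hu, ?_, huind⟩
    · rw [hspan]
    · rw [hus, hspan]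
  have hind : LinearIndependent ℂ (Fin.cons (ρ β x) u : Fin (m + 1) → P) := by
    rw [linearIndependent_finCons]
    refine ⟨huind, ?_⟩
    rw [hus]
    exact hβ
  set v : Fin (m + 1) → P :=
    Fin.cons 0 (fun i => if u i ∈ U then 0 else ρ β (u i)) with hv
  have hfin : ({s : ℂ | ¬ IsUnit (1 + s • β)} ∪
      ({s : ℂ | ¬ LinearIndependent ℂ
        (fun i => (Fin.cons (ρ β x) u : Fin (m + 1) → P) i + s • v i)} ∪ {0})).Finite :=
    (rc4_finite_not_unit β).union ((rc4_finite_not_indep _ v hind).union (Set.finite_singleton 0))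
  obtain ⟨s, hs⟩ := hfin.infinite_compl.nonempty
  simp only [Set.mem_compl_iff, Set.mem_union, Set.mem_ofPred_eq, Set.mem_singleton_iff,
    not_or, not_not] at hs
  obtain ⟨hs1, hs2, hs3⟩ := hs
  obtain ⟨b, hb⟩ := hs1
  have hle := hc (b * c)
  have hmap : ∀ y ∈ U.map (ρ (c : B)), y + s • ρ β y ∈ U.map (ρ ((b * c : Bˣ) : B)) := by
    rintro y ⟨z, hz, rfl⟩
    refine ⟨z, hz, ?_⟩
    rw [Units.val_mul, hb, map_mul, Module.End.mul_apply, map_add, map_one, map_smul]
    rfl
  have hmem : ∀ i, (Fin.cons (ρ β x) u : Fin (m + 1) → P) i + s • v i ∈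
      U ⊔ U.map (ρ ((b * c : Bˣ) : B)) := by
    intro i
    refine Fin.cases ?_ (fun i => ?_) i
    · rw [hv, Fin.cons_zero, Fin.cons_zero, smul_zero, add_zero]
      have h1 : x + s • ρ β x ∈ U ⊔ U.map (ρ ((b * c : Bˣ) : B)) :=
        Submodule.mem_sup_right (hmap x hxc)
      have h2 : s • ρ β x ∈ U ⊔ U.map (ρ ((b * c : Bˣ) : B)) := by
        have := Submodule.sub_mem _ h1 (Submodule.mem_sup_left hx)
        rwa [add_sub_cancel_left] at this
      exact (Submodule.smul_mem_iff _ hs3).1 h2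
    · rw [hv, Fin.cons_succ, Fin.cons_succ]
      by_cases hi : u i ∈ U
      · rw [if_pos hi, smul_zero, add_zero]
        exact Submodule.mem_sup_left hi
      · rw [if_neg hi]
        rcases hu i with h1 | h1
        · exact absurd h1 hi
        · exact Submodule.mem_sup_right (hmap _ h1)
  have hcard : m + 1 ≤ finrank ℂ (U ⊔ U.map (ρ ((b * c : Bˣ) : B)) : Submodule ℂ P) := by
    have h1 : Submodule.span ℂ (Set.range
        (fun i => (Fin.cons (ρ β x) u : Fin (m + 1) → P) i + s • v i)) ≤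
        U ⊔ U.map (ρ ((b * c : Bˣ) : B)) := by
      rw [Submodule.span_le]
      rintro _ ⟨i, rfl⟩
      exact hmem i
    have h2 := Submodule.finrank_mono h1
    rw [finrank_span_eq_card hs2, Fintype.card_fin] at h2
    exact h2
  omega

end Pool.Agent.Helper63.RC
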