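import Mathlib
import Pool.Agent.Helper63.RC.Defs

set_option autoImplicit false

namespace Pool.Agent.Helper63.RC

open Matrix Module

section mass

variable {G : Type} [Group G] [Fintype G] {ι : Type} (d : ι → ℕ)
    (Φ : MonoidAlgebra ℂ G ≃ₐ[ℂ] Π i, Matrix (Fin (d i)) (Fin (d i)) ℂ)

/-- the block `i` as a homomorphism of monoids -/
noncomputable def blk (i : ι) : G →* Matrix (Fin (d i)) (Fin (d i)) ℂ where
  toFun g := Φ (MonoidAlgebra.single g 1) i
  map_one' := by
    have : (MonoidAlgebra.single (1 : G) (1 : ℂ)) = 1 := rfl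
    rw [this, map_one]; rfl
  map_mul' g h := by
    have : (MonoidAlgebra.single (g * h) (1 : ℂ)) =
        MonoidAlgebra.single g 1 * MonoidAlgebra.single h 1 := by
      rw [MonoidAlgebra.single_mul_single, one_mul]
    rw [this, map_mul]; rfl

/-- the tensor product of two blocks -/
noncomputable def kr (i j : ι) :
    G →* Matrix (Fin (d i) × Fin (d j)) (Fin (d i) × Fin (d j)) ℂ where
  toFun g := Matrix.kroneckerMap (· * ·) (blk d Φ i g) (blk d Φ j g)
  map_one' := by
    rw [map_one, map_one]
    exact Matrix.one_kronecker_one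
  map_mul' g h := by
    rw [map_mul, map_mul]
    exact Matrix.mul_kronecker_mul _ _ _ _

/-- the corresponding homomorphism of algebras -/
noncomputable def rho (i j : ι) :
    MonoidAlgebra ℂ G →ₐ[ℂ] Matrix (Fin (d i) × Fin (d j)) (Fin (d i) × Fin (d j)) ℂ :=
  MonoidAlgebra.lift ℂ _ G (kr d Φ i j)

theorem rho_apply (i j : ι) (x : MonoidAlgebra ℂ G) (p q : Fin (d i)) (p' q' : Fin (d j)) :
    rho d Φ i j x (p, p') (q, q') =
      ∑ g, x.coeff g * (blk d Φ i g p q * blk d Φ j g p' q') := by
  rw [rho, MonoidAlgebra.lift_apply, Finsupp.sum_fintype _ _ (by simp), Matrix.sum_apply]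
  rfl

theorem eq_sum_single (x : MonoidAlgebra ℂ G) :
    x = ∑ g, x.coeff g • MonoidAlgebra.single g (1 : ℂ) := by
  classical
  ext g
  rw [MonoidAlgebra.coeff_sum, Finsupp.finsetSum_apply, Finset.sum_eq_single g]
  · simp
  · intro b _ hb
    rw [MonoidAlgebra.coeff_smul_apply, MonoidAlgebra.coeff_single, Finsupp.single_apply,
      if_neg hb, smul_zero]
  · intro h
    exact absurd (Finset.mem_univ g) h

/-- the index set of the coefficient functions of small degree -/
abbrev Idx (D : ℕ) : Type := Σ i : {i : ι // d i < D}, Fin (d i.1) × Fin (d i.1)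

/-- the coefficient functions of small degree -/
noncomputable def cf (D : ℕ) : Matrix (Idx d D) G ℂ :=
  Matrix.of fun t g => blk d Φ t.1.1 g t.2.1 t.2.2

theorem cf_indep [Fintype ι] (D : ℕ) : LinearIndependent ℂ (cf d Φ D).row := by
  classical
  rw [Fintype.linearIndependent_iff]
  intro c hc t
  let L : MonoidAlgebra ℂ G →ₗ[ℂ] ℂ :=
    { toFun := fun x => ∑ t : Idx d D, c t * (Φ x) t.1.1 t.2.1 t.2.2
      map_add' := fun x y => by
        rw [← Finset.sum_add_distrib]
        refine Finset.sum_congr rfl fun t _ => ?_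
        rw [map_add]
        show _ * ((Φ x) t.1.1 t.2.1 t.2.2 + (Φ y) t.1.1 t.2.1 t.2.2) = _
        ring
      map_smul' := fun r x => by
        rw [RingHom.id_apply, smul_eq_mul, Finset.mul_sum]
        refine Finset.sum_congr rfl fun t _ => ?_
        rw [map_smul]
        show _ * (r * (Φ x) t.1.1 t.2.1 t.2.2) = _
        ring }
  have hL : ∀ x, L x = 0 := by
    intro x
    rw [eq_sum_single x, map_sum]
    refine Finset.sum_eq_zero fun g _ => ?_
    rw [map_smul]
    have h1 : L (MonoidAlgebra.single g 1) = 0 := by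
      have := congrFun hc g
      rw [Finset.sum_apply] at this
      exact this
    rw [h1, smul_zero]
  have h2 := hL (Φ.symm (Pi.single t.1.1 (Matrix.single t.2.1 t.2.2 1)))
  have h3 : L (Φ.symm (Pi.single t.1.1 (Matrix.single t.2.1 t.2.2 1))) = c t := by
    show ∑ s : Idx d D, c s * (Φ (Φ.symm (Pi.single t.1.1
      (Matrix.single t.2.1 t.2.2 1)))) s.1.1 s.2.1 s.2.2 = c t
    rw [AlgEquiv.apply_symm_apply, Finset.sum_eq_single t]
    · rw [Pi.single_eq_same, Matrix.single_apply_same, mul_one]
    · rintro ⟨⟨i, hi⟩, p, q⟩ _ hne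
      obtain ⟨⟨j, hj⟩, p', q'⟩ := t
      by_cases hij : i = j
      · subst hij
        rw [Pi.single_eq_same, Matrix.single_apply, if_neg, mul_zero]
        rintro ⟨h1, h2⟩
        apply hne
        simp only at h1 h2
        rw [h1, h2]
      · rw [Pi.single_eq_of_ne hij]
        exact mul_zero _
    · intro h
      exact absurd (Finset.mem_univ t) h
  rw [← h3, h2]

theorem card_idx [Fintype ι] (D : ℕ) : Fintype.card (Idx d D) = ∑ i with d i < D, d i ^ 2 := by
  classical
  rw [Fintype.card_sigma, Finset.sum_subtype (Finset.univ.filter fun i => d i < D)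
    (p := fun i => d i < D) (by simp) (fun i => d i ^ 2)]
  refine Finset.sum_congr rfl fun i _ => ?_
  rw [Fintype.card_prod, Fintype.card_fin, sq]

/-- If the products of coefficient functions of small degree do not separate, the mass is small. -/
theorem joint_inj [Fintype ι] (D : ℕ) (hD : Fintype.card G < 2 * ∑ i with d i < D, d i ^ 2)
    (x : MonoidAlgebra ℂ G) (hx : ∀ i j, d i < D → d j < D → rho d Φ i j x = 0) : x = 0 := by
  classical
  by_contra hne
  -- a multiple of `x` all of whose coefficients are different from zero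
  obtain ⟨z, hz⟩ : ∃ z : MonoidAlgebra ℂ G, ∀ g : G, (z * x).coeff g ≠ 0 := by
    let f : G → Dual ℂ (MonoidAlgebra ℂ G) := fun g =>
      { toFun := fun z => (z * x).coeff g
        map_add' := fun y z => by
          rw [add_mul, MonoidAlgebra.coeff_add]; rfl
        map_smul' := fun r z => by
          rw [smul_mul_assoc, MonoidAlgebra.coeff_smul]; rfl }
    have hf : ∀ g, ∃ z, f g z ≠ 0 := by
      intro g
      obtain ⟨h, hh⟩ : ∃ h, x.coeff h ≠ 0 := by
        by_contra hcon
        push Not at hcon
        apply hne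
        ext h
        exact hcon h
      refine ⟨MonoidAlgebra.single (g * h⁻¹) 1, ?_⟩
      show (MonoidAlgebra.single (g * h⁻¹) 1 * x).coeff g ≠ 0
      have : (MonoidAlgebra.single (g * h⁻¹) (1 : ℂ) * x).coeff g = x.coeff h := by
        have e : g = (g * h⁻¹) * h := by group
        rw [MonoidAlgebra.coeff_single_mul_apply]
        simp
      rw [this]
      exact hh
    exact Module.Dual.exists_forall_ne_zero_of_forall_exists f hf
  set y : G → ℂ := fun g => (z * x).coeff g with hy
  set U : Matrix (Idx d D) G ℂ := cf d Φ D with hU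
  have hprod : (U * Matrix.diagonal y) * Uᵀ = 0 := by
    ext s t
    have h1 : rho d Φ s.1.1 t.1.1 (z * x) = 0 := by
      rw [map_mul, hx _ _ s.1.2 t.1.2, mul_zero]
    have h2 := congrFun (congrFun h1 (s.2.1, t.2.1)) (s.2.2, t.2.2)
    rw [rho_apply] at h2
    rw [Matrix.mul_apply]
    rw [Matrix.zero_apply] at h2 ⊢
    rw [← h2]
    refine Finset.sum_congr rfl fun g _ => ?_
    rw [Matrix.mul_diagonal]
    show blk d Φ s.1.1 g s.2.1 s.2.2 * (z * x).coeff g * blk d Φ t.1.1 g t.2.1 t.2.2 = _
    ring
  have h1 := Matrix.rank_add_rank_le_card_of_mul_eq_zero hprod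
  have h2 : (U * Matrix.diagonal y).rank = U.rank := by
    apply Matrix.rank_mul_eq_left_of_det_ne_zero
    rw [Matrix.det_diagonal]
    exact Finset.prod_ne_zero_iff.2 fun g _ => hz g
  have h3 : U.rank = Fintype.card (Idx d D) := (cf_indep d Φ D).rank_matrix
  rw [h2, Matrix.rank_transpose, h3, card_idx] at h1
  omega

end mass

theorem rc15_mass {G : Type} [Group G] [Fintype G] {ι : Type} [Fintype ι] (d : ι → ℕ)
    (Φ : MonoidAlgebra ℂ G ≃ₐ[ℂ] Π i, Matrix (Fin (d i)) (Fin (d i)) ℂ)
    {κ : Type} [Fintype κ] [DecidableEq κ] (ψ : MonoidAlgebra ℂ G →ₐ[ℂ] Matrix κ κ ℂ)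
    (hψ : Function.Surjective ψ) (D : ℕ) (hD : D ^ 2 ≤ Fintype.card κ) :
    2 * ∑ i with d i < D, d i ^ 2 ≤ Fintype.card G := by
  classical
  by_contra hcon
  push Not at hcon
  have hDpos : 0 < D := by
    by_contra h
    have hD0 : D = 0 := by omega
    subst hD0
    simp at hcon
  have hκ : Nonempty κ := by
    rw [← Fintype.card_pos_iff]
    exact lt_of_lt_of_le (by positivity) hD
  -- the kernels
  have key : ∀ s : Finset ({i : ι // d i < D} × {i : ι // d i < D}),
      (∃ p ∈ s, ∀ x, rho d Φ p.1.1 p.2.1 x = 0 → ψ x = 0) ∨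
      ∃ x, (∀ p ∈ s, rho d Φ p.1.1 p.2.1 x = 0) ∧ ψ x ≠ 0 := by
    intro s
    induction s using Finset.induction_on with
    | empty =>
      right
      refine ⟨1, by simp, ?_⟩
      rw [map_one]
      exact one_ne_zero
    | insert p s hp ih =>
      rcases ih with ⟨p', hp', h⟩ | ⟨x, hx, hx0⟩
      · exact Or.inl ⟨p', Finset.mem_insert_of_mem hp', h⟩
      · by_cases hpk : ∀ x, rho d Φ p.1.1 p.2.1 x = 0 → ψ x = 0
        · exact Or.inl ⟨p, Finset.mem_insert_self _ _, hpk⟩
        · right
          push Not at hpk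
          obtain ⟨x', hx', hx0'⟩ := hpk
          obtain ⟨a, b, hab⟩ : ∃ a b, ψ x a b ≠ 0 := by
            by_contra hc
            push Not at hc
            exact hx0 (by ext a b; exact hc a b)
          obtain ⟨a', b', hab'⟩ : ∃ a b, ψ x' a b ≠ 0 := by
            by_contra hc
            push Not at hc
            exact hx0' (by ext a b; exact hc a b)
          obtain ⟨z, hz⟩ := hψ (Matrix.single b a' 1)
          refine ⟨x * z * x', ?_, ?_⟩
          · intro q hq
            rw [map_mul, map_mul]
            rcases Finset.mem_insert.1 hq with rfl | hq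
            · rw [hx', mul_zero]
            · rw [hx q hq, zero_mul, zero_mul]
          · intro h0
            have h1 := congrFun (congrFun h0 a) b'
            rw [map_mul, map_mul, hz, Matrix.mul_assoc, Matrix.mul_apply,
              Finset.sum_eq_single b] at h1
            · rw [Matrix.single_mul_apply_same, one_mul, Matrix.zero_apply] at h1
              exact (mul_ne_zero hab hab') h1
            · intro c _ hc
              rw [Matrix.single_mul_apply_of_ne _ _ _ _ _ hc, mul_zero]
            · intro h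
              exact absurd (Finset.mem_univ _) h
  rcases key Finset.univ with ⟨p, -, hp⟩ | ⟨x, hx, hx0⟩
  · have h1 : finrank ℂ (LinearMap.range ψ.toLinearMap) ≤
        finrank ℂ (LinearMap.range (rho d Φ p.1.1 p.2.1).toLinearMap) := by
      have e1 := LinearMap.finrank_range_add_finrank_ker ψ.toLinearMap
      have e2 := LinearMap.finrank_range_add_finrank_ker (rho d Φ p.1.1 p.2.1).toLinearMap
      have e3 : finrank ℂ (LinearMap.ker (rho d Φ p.1.1 p.2.1).toLinearMap) ≤
          finrank ℂ (LinearMap.ker ψ.toLinearMap) := by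
        apply Submodule.finrank_mono
        intro x hx
        exact hp x hx
      omega
    have h2 : LinearMap.range ψ.toLinearMap = ⊤ := LinearMap.range_eq_top.2 hψ
    rw [h2, finrank_top, Module.finrank_matrix] at h1
    have h3 := h1.trans (Submodule.finrank_le _)
    rw [Module.finrank_matrix] at h3
    simp only [finrank_self, mul_one, Fintype.card_prod, Fintype.card_fin] at h3
    have h4 : Fintype.card κ ≤ d p.1.1 * d p.2.1 := by
      by_contra hc
      push Not at hc
      have := Nat.mul_lt_mul'' hc hc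
      omega
    have h5 : d p.1.1 * d p.2.1 < D * D := Nat.mul_lt_mul'' p.1.2 p.2.2
    have h6 : D ^ 2 = D * D := sq D
    omega
  · apply hx0
    have : x = 0 := by
      apply joint_inj d Φ D hcon
      intro i j hi hj
      exact hx (⟨i, hi⟩, ⟨j, hj⟩) (Finset.mem_univ _)
    rw [this, map_zero]

end Pool.Agent.Helper63.RC
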